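import Mathlib
import Pool.Agent.Y668.RI.Fin

/-!
# Context-free languages with rational index `2 ^ Θ(log² n)` and `2 ^ Θ(√n log n)`
-/

set_option autoImplicit false

namespace Pool.Agent.Results.MP_275d83_lc.TwoIntermediateRates

open Filter Pool.Agent.Y668.RI
open Pool.Agent.Results.MP_275d83_lc.Intermediate (ratIndex Superpolynomial Subexponential)

/-- (1) There is a context-free language over three letters whose rational index is of
intermediate growth and lies between `2 ^ (log² n / 64)` and `2 ^ (13 log² n)`.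
(2) For every `κ ≥ 1` there is a context-free language over three letters whose rational index is
of intermediate growth and lies between `2 ^ (√(n / κ) log n / 16)` and `2 ^ (9 √(n / κ) log n)`.
(3) Hence there is a sequence of context-free languages over three letters, all of them with
rational index of intermediate growth, in which the rational index of each language is eventually
larger than the rational index of the next one, and all of them are eventually larger than the
rational index of a language as in (1). -/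
theorem result :
    (∃ L : Language (Fin 3), L.IsContextFree ∧ Superpolynomial (ratIndex L) ∧
      Subexponential (ratIndex L) ∧
      ∀ᶠ n : ℕ in atTop, (2 : ℝ) ^ (1 / 64 * Real.logb 2 n ^ 2) ≤ ratIndex L n ∧
        (ratIndex L n : ℝ) ≤ (2 : ℝ) ^ (13 * Real.logb 2 n ^ 2)) ∧
    (∀ κ : ℕ, 1 ≤ κ → ∃ L : Language (Fin 3), L.IsContextFree ∧ Superpolynomial (ratIndex L) ∧
      Subexponential (ratIndex L) ∧
      ∀ᶠ n : ℕ in atTop, (2 : ℝ) ^ (1 / 16 * √((n : ℝ) / κ) * Real.logb 2 n) ≤ ratIndex L n ∧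
        (ratIndex L n : ℝ) ≤ (2 : ℝ) ^ (9 * √((n : ℝ) / κ) * Real.logb 2 n)) ∧
    (∃ (L : ℕ → Language (Fin 3)) (L' : Language (Fin 3)),
      (∀ i, (L i).IsContextFree ∧ Superpolynomial (ratIndex (L i)) ∧
        Subexponential (ratIndex (L i))) ∧
      (L'.IsContextFree ∧ Superpolynomial (ratIndex L') ∧ Subexponential (ratIndex L')) ∧
      (∀ i, ∀ᶠ n : ℕ in atTop, ratIndex (L (i + 1)) n < ratIndex (L i) n) ∧
      ∀ i, ∀ᶠ n : ℕ in atTop, ratIndex L' n < ratIndex (L i) n) := by
  refine ⟨⟨Pool.Agent.Helper178.Idx.Lang, Pool.Agent.Helper178.Idx.lang_contextFree, superpoly1,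
    subexp1, lower1.and upper1⟩, fun κ hκ => ⟨Lang2 κ, lang2_contextFree hκ, superpoly2 hκ,
    subexp2 hκ, (lower2 hκ).and (upper3 hκ)⟩, fun i => Lang2 (20737 ^ i),
    Pool.Agent.Helper178.Idx.Lang, fun i => ?_,
    ⟨Pool.Agent.Helper178.Idx.lang_contextFree, superpoly1, subexp1⟩, fun i => ?_, fun i => ?_⟩
  · have h : 1 ≤ 20737 ^ i := Nat.one_le_pow _ _ (by norm_num)
    exact ⟨lang2_contextFree h, superpoly2 h, subexp2 h⟩
  · have h : 1 ≤ 20737 ^ i := Nat.one_le_pow _ _ (by norm_num)
    have h' : 1 ≤ 20737 ^ (i + 1) := Nat.one_le_pow _ _ (by norm_num)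
    filter_upwards [lower2 h, upper3 h', eventually_ge_atTop 2] with n h1 h2 h3
    have h4 : (ratIndex (Lang2 (20737 ^ (i + 1))) n : ℝ) < ratIndex (Lang2 (20737 ^ i)) n := by
      refine lt_of_le_of_lt h2 (lt_of_lt_of_le ?_ h1)
      refine Real.rpow_lt_rpow_of_exponent_lt (by norm_num) ?_
      have hn : (2 : ℝ) ≤ n := by exact_mod_cast h3
      have hlog : 0 < Real.logb 2 (n : ℝ) := Real.logb_pos (by norm_num) (by linarith)
      refine mul_lt_mul_of_pos_right ?_ hlog
      have h5 : √((n : ℝ) / ((20737 ^ (i + 1) : ℕ) : ℝ)) =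
          √((n : ℝ) / ((20737 ^ i : ℕ) : ℝ)) / √20737 := by
        rw [← Real.sqrt_div (by positivity)]
        congr 1
        push_cast
        rw [pow_succ, div_div]
      have h6 : 0 < √((n : ℝ) / ((20737 ^ i : ℕ) : ℝ)) := Real.sqrt_pos.2 (by positivity)
      have h7 : (144 : ℝ) < √20737 := by
        rw [Real.lt_sqrt (by norm_num)]
        norm_num
      have h8 : 9 * (√((n : ℝ) / ((20737 ^ i : ℕ) : ℝ)) / √20737) <
          1 / 16 * √((n : ℝ) / ((20737 ^ i : ℕ) : ℝ)) := by
        rw [← mul_div_assoc, div_lt_iff₀ (by linarith)]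
        nlinarith
      rw [h5]
      exact h8
    exact_mod_cast h4
  · have h : 1 ≤ 20737 ^ i := Nat.one_le_pow _ _ (by norm_num)
    have hκ0 : (0 : ℝ) < ((20737 ^ i : ℕ) : ℝ) := by exact_mod_cast h
    have hε : (0 : ℝ) < 1 / (16 * 14 * √((20737 ^ i : ℕ) : ℝ)) := by positivity
    filter_upwards [lower2 h, upper1, log_small _ hε, eventually_ge_atTop 2] with n h1 h2 h3 h4
    have h5 : (ratIndex Pool.Agent.Helper178.Idx.Lang n : ℝ) < ratIndex (Lang2 (20737 ^ i)) n := by
      refine lt_of_le_of_lt h2 (lt_of_lt_of_le ?_ h1)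
      refine Real.rpow_lt_rpow_of_exponent_lt (by norm_num) ?_
      have hn : (2 : ℝ) ≤ n := by exact_mod_cast h4
      have hlog : 0 < Real.logb 2 (n : ℝ) := Real.logb_pos (by norm_num) (by linarith)
      rw [pow_two, ← mul_assoc]
      refine mul_lt_mul_of_pos_right ?_ hlog
      have hsq : 0 < √((20737 ^ i : ℕ) : ℝ) := Real.sqrt_pos.2 hκ0
      have h6 : √((n : ℝ) / ((20737 ^ i : ℕ) : ℝ)) = √(n : ℝ) / √((20737 ^ i : ℕ) : ℝ) :=
        Real.sqrt_div (by positivity) _
      rw [h6]
      have h7 : 14 * Real.logb 2 (n : ℝ) ≤ 1 / 16 * (√(n : ℝ) / √((20737 ^ i : ℕ) : ℝ)) := by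
        calc 14 * Real.logb 2 (n : ℝ)
            ≤ 14 * (1 / (16 * 14 * √((20737 ^ i : ℕ) : ℝ)) * √(n : ℝ)) := by linarith
          _ = 1 / 16 * (√(n : ℝ) / √((20737 ^ i : ℕ) : ℝ)) := by
            field_simp
      linarith
    exact_mod_cast h5

end Pool.Agent.Results.MP_275d83_lc.TwoIntermediateRates
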